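import Pool.Agent.K7.H28.SP.P2
import Pool.Agent.K7.H28.SM.M2
import Pool.Agent.R772.FamK

/-!
# Paths of closed two-forms, modified by paths of forms of rank two
-/

set_option autoImplicit false

open Set Filter Topology MeasureTheory
open scoped Manifold ContDiff

noncomputable section

namespace Pool.Agent.K7.H28.SP

open Pool.Agent.Y501.SY Pool.Agent.Y455.SY Pool.Agent.R772 Pool.Agent.K7.H28.SM

variable {d m : ℕ} {X : Type} [TopologicalSpace X] [ChartedSpace (E d) X]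

theorem SPath.mulP {k : ℕ} {f : ℝ → ℝ} {ρ : ℝ → Form d X k} (hf : ContDiff ℝ ∞ f)
    (hρ : SPath ρ) : SPath fun t => f t • ρ t := by
  intro U φ hU hφ
  have h1 : ContDiffOn ℝ ∞ (fun z : ℝ × E d => f z.1 • pb φ (ρ z.1) z.2) (univ ×ˢ U) := by
    have g1 : ContDiffOn ℝ ∞ (fun z : ℝ × E d => f z.1) (univ ×ˢ U) :=
      (hf.comp contDiff_fst).contDiffOn
    exact g1.smul (hρ U φ hU hφ)
  exact h1

theorem SPath.slice {k : ℕ} {ρ : ℝ → Form d X k} (hρ : SPath ρ) (t : ℝ) : IsSmooth (ρ t) := by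
  intro U φ hU hφ
  have h1 : ContDiffOn ℝ ∞ (fun p : E d => (t, p)) U :=
    (contDiff_const.prodMk contDiff_id).contDiffOn
  exact (hρ U φ hU hφ).comp h1 fun p hp => ⟨mem_univ _, hp⟩

section

variable [IsManifold (𝓡 d) ∞ X]

theorem SPath.fam {ρ : ℝ → Form d X 2} (hρ : SPath ρ) : ContFam ρ := by
  intro z
  exact (hρ _ _ (chartAt (E d) z).open_target contMDiffOn_chart_symm).continuousOn

end

theorem md_sum (hd : d = 2 * (m + 1)) {vol : Top d m X} (hvol : IsVol vol) (σ : Form d X 2)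
    {ι : Type} (s : Finset ι) (c : ι → ℝ) (ρ : ι → Form d X 2) (x : X) :
    md vol σ (∑ i ∈ s, c i • ρ i) x = ∑ i ∈ s, c i * md vol σ (ρ i) x := by
  classical
  induction s using Finset.induction_on with
  | empty =>
    rw [Finset.sum_empty, Finset.sum_empty]
    have h1 := md_smul hd hvol σ (0 : Form d X 2) 0 x
    rw [zero_smul, zero_mul] at h1
    exact h1
  | insert a s ha ih =>
    rw [Finset.sum_insert ha, Finset.sum_insert ha, md_add hd hvol, md_smul hd hvol, ih]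

variable {W : Type} [AddCommGroup W] [Module ℝ W] [IsManifold (𝓡 d) ∞ X]

theorem rk_path [CompactSpace X] (hd : d = 2 * (m + 1)) {vol : Top d m X} (hvol : IsVol vol)
    {σ : ℝ → Form d X 2} (hσ : SPath σ) (Φ : ℝ → W →ₗ[ℝ] Form d X 2)
    (hΦ : ∀ w, SPath fun t => Φ t w)
    (hrk : ∀ t w x, Rk2 (V := TangentSpace (𝓡 d) x) (Φ t w x))
    (h0 : ∀ x, PosTop vol (σ 0) x) (h1 : ∀ x, PosTop vol (σ 1) x)
    (hc : ∀ t ∈ Icc (0 : ℝ) 1, ∃ w, ∀ x, PosTop vol (σ t + Φ t w) x) :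
    ∃ (n : ℕ) (f : Fin n → ℝ → ℝ) (w : Fin n → W), (∀ i, ContDiff ℝ ∞ (f i)) ∧
      (∑ i, f i 0 • w i = 0) ∧ (∑ i, f i 1 • w i = 0) ∧
      ∀ t ∈ Icc (0 : ℝ) 1, ∀ x, PosTop vol (σ t + Φ t (∑ i, f i t • w i)) x := by
  classical
  have m0 : (0 : ℝ) ∈ Icc (0 : ℝ) 1 := ⟨le_rfl, zero_le_one⟩
  have m1 : (1 : ℝ) ∈ Icc (0 : ℝ) 1 := ⟨zero_le_one, le_rfl⟩
  -- the elements at all times
  have h' : ∀ t : ℝ, ∃ w : W, (t ∈ Icc (0 : ℝ) 1 → ∀ x, PosTop vol (σ t + Φ t w) x) ∧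
      (t = 0 → w = 0) ∧ (t = 1 → w = 0) := by
    intro t
    by_cases e0 : t = 0
    · subst e0
      refine ⟨0, fun _ x => ?_, fun _ => rfl, fun _ => rfl⟩
      rw [map_zero, add_zero]
      exact h0 x
    · by_cases e1 : t = 1
      · subst e1
        refine ⟨0, fun _ x => ?_, fun _ => rfl, fun _ => rfl⟩
        rw [map_zero, add_zero]
        exact h1 x
      · by_cases ht : t ∈ Icc (0 : ℝ) 1
        · obtain ⟨w, hw⟩ := hc t ht
          exact ⟨w, fun _ => hw, fun g => absurd g e0, fun g => absurd g e1⟩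
        · exact ⟨0, fun g => absurd g ht, fun _ => rfl, fun _ => rfl⟩
  choose w hw hw0 hw1 using h'
  -- the radii
  have hr : ∀ t : ℝ, ∃ ε : ℝ, 0 < ε ∧ (t ∈ Icc (0 : ℝ) 1 → ∀ s ∈ Metric.ball t ε,
      ∀ x, PosTop vol (σ s + Φ s (w t)) x) ∧ (t ≠ 0 → (0 : ℝ) ∉ Metric.ball t ε) ∧
      (t ≠ 1 → (1 : ℝ) ∉ Metric.ball t ε) := by
    intro t
    have g1 : ∀ᶠ s in 𝓝 t, t ∈ Icc (0 : ℝ) 1 → ∀ x, PosTop vol (σ s + Φ s (w t)) x := by
      by_cases ht : t ∈ Icc (0 : ℝ) 1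
      · have g2 := isOpen_pos hd hvol ((hσ.fam).add (hΦ (w t)).fam)
        have g3 := g2.mem_nhds (show t ∈ {p | ∀ x, PosTop vol (σ p + Φ p (w t)) x} from
          hw t ht)
        filter_upwards [g3] with s hs _
        exact hs
      · exact Eventually.of_forall fun s hs => absurd hs ht
    have g2 : ∀ᶠ s in 𝓝 t, t ≠ 0 → s ≠ 0 := by
      by_cases ht : t = 0
      · exact Eventually.of_forall fun s hs => absurd ht hs
      · filter_upwards [isOpen_ne.mem_nhds ht] with s hs _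
        exact hs
    have g3 : ∀ᶠ s in 𝓝 t, t ≠ 1 → s ≠ 1 := by
      by_cases ht : t = 1
      · exact Eventually.of_forall fun s hs => absurd ht hs
      · filter_upwards [isOpen_ne.mem_nhds ht] with s hs _
        exact hs
    obtain ⟨ε, hε, g4⟩ := Metric.eventually_nhds_iff_ball.1 ((g1.and g2).and g3)
    exact ⟨ε, hε, fun ht s hs => (g4 s hs).1.1 ht, fun ht hs => (g4 0 hs).1.2 ht rfl,
      fun ht hs => (g4 1 hs).2 ht rfl⟩
  choose ε hε hε1 hε2 hε3 using hr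
  obtain ⟨T, hTs, hT⟩ := (isCompact_Icc (a := (0 : ℝ)) (b := 1)).elim_nhds_subcover
    (fun t => Metric.ball t (ε t)) (fun t _ => Metric.ball_mem_nhds t (hε t))
  obtain ⟨f, hf⟩ := SmoothPartitionOfUnity.exists_isSubordinate 𝓘(ℝ, ℝ)
    (isClosed_Icc (a := (0 : ℝ)) (b := 1)) (fun i : T => Metric.ball (i : ℝ) (ε i))
    (fun i => Metric.isOpen_ball) (by
      intro t ht
      obtain ⟨i, hi, hti⟩ := mem_iUnion₂.1 (hT ht)
      exact mem_iUnion.2 ⟨⟨i, hi⟩, hti⟩)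
  have hsum : ∀ t ∈ Icc (0 : ℝ) 1, ∑ i, f i t = 1 := by
    intro t ht
    have g1 := f.sum_eq_one ht
    rwa [finsum_eq_sum_of_fintype] at g1
  have hnn : ∀ i t, 0 ≤ f i t := fun i t => f.nonneg i t
  have hsupp : ∀ (i : T) t, f i t ≠ 0 → t ∈ Metric.ball (i : ℝ) (ε i) := fun i t ht =>
    hf i (subset_tsupport _ ht)
  let e : Fin (Fintype.card T) ≃ T := (Fintype.equivFin T).symm
  have hre : ∀ {M : Type} [AddCommMonoid M] (g : T → M), ∑ i, g (e i) = ∑ j, g j :=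
    fun g => Equiv.sum_comp e g
  refine ⟨Fintype.card T, fun i => f (e i), fun i => w (e i),
    fun i => (f (e i)).contMDiff.contDiff, ?_, ?_, ?_⟩
  · rw [hre fun j : T => f j 0 • w j]
    refine Finset.sum_eq_zero fun j _ => ?_
    by_cases hj : (j : ℝ) = 0
    · rw [hw0 j hj, smul_zero]
    · have : f j 0 = 0 := by
        by_contra hne
        exact hε2 j hj (hsupp j 0 hne)
      rw [this, zero_smul]
  · rw [hre fun j : T => f j 1 • w j]
    refine Finset.sum_eq_zero fun j _ => ?_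
    by_cases hj : (j : ℝ) = 1
    · rw [hw1 j hj, smul_zero]
    · have : f j 1 = 0 := by
        by_contra hne
        exact hε3 j hj (hsupp j 1 hne)
      rw [this, zero_smul]
  · intro t ht x
    rw [hre fun j : T => f j t • w j]
    rw [posTop_iff hd hvol, td_expand hd hvol (σ t) _ x (hrk t _ x)]
    have g1 : Φ t (∑ j : T, f j t • w j) = ∑ j : T, f j t • Φ t (w j) := by
      rw [map_sum]
      exact Finset.sum_congr rfl fun j _ => map_smul _ _ _
    rw [g1, md_sum hd hvol]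
    have g2 : td vol (σ t) x + (m + 1 : ℝ) * ∑ j : T, f j t * md vol (σ t) (Φ t (w j)) x =
        ∑ j : T, f j t * (td vol (σ t) x + (m + 1 : ℝ) * md vol (σ t) (Φ t (w j)) x) := by
      have g3 : ∑ j : T, f j t * (td vol (σ t) x + (m + 1 : ℝ) * md vol (σ t) (Φ t (w j)) x) =
          (∑ j : T, f j t) * td vol (σ t) x +
            (m + 1 : ℝ) * ∑ j : T, f j t * md vol (σ t) (Φ t (w j)) x := by
        rw [Finset.sum_mul, Finset.mul_sum, ← Finset.sum_add_distrib]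
        exact Finset.sum_congr rfl fun j _ => by ring
      rw [g3, hsum t ht, one_mul]
    rw [g2]
    obtain ⟨j₀, hj₀⟩ : ∃ j₀ : T, f j₀ t ≠ 0 := by
      by_contra hcon
      push Not at hcon
      have g3 := hsum t ht
      rw [Finset.sum_eq_zero fun j _ => hcon j] at g3
      exact zero_ne_one g3
    have hp : ∀ j : T, f j t ≠ 0 →
        0 < td vol (σ t) x + (m + 1 : ℝ) * md vol (σ t) (Φ t (w j)) x := by
      intro j hj
      have g4 := hε1 j (hTs j j.2) t (hsupp j t hj) x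
      rwa [posTop_iff hd hvol, td_expand hd hvol (σ t) _ x (hrk t _ x)] at g4
    refine Finset.sum_pos' (fun j _ => ?_) ⟨j₀, Finset.mem_univ _, ?_⟩
    · by_cases hj : f j t = 0
      · rw [hj, zero_mul]
      · exact mul_nonneg (hnn j t) (hp j hj).le
    · exact mul_pos (lt_of_le_of_ne (hnn j₀ t) (Ne.symm hj₀)) (hp j₀ hj₀)

/-- **The criterion for paths.** -/
theorem transport_path [CompactSpace X] [T2Space X] [MeasurableSpace X] [BorelSpace X]
    (hd : d = 2 * (m + 1)) {vol : Top d m X} (hvol : IsVol vol)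
    {σ : ℝ → Form d X 2} (hσ : SPath σ) (Φ : ℝ → W →ₗ[ℝ] Form d X 2)
    (hΦ : ∀ w, SPath fun t => Φ t w)
    (hrk : ∀ t w x, Rk2 (V := TangentSpace (𝓡 d) x) (Φ t w x))
    (h0 : ∀ x, PosTop vol (σ 0) x) (h1 : ∀ x, PosTop vol (σ 1) x) :
    (∃ w : ℝ → W, w 0 = 0 ∧ w 1 = 0 ∧ SPath (fun t => Φ t (w t)) ∧
      ∀ t ∈ Icc (0 : ℝ) 1, ∀ x, PosTop vol (σ t + Φ t (w t)) x) ↔
    ∀ t ∈ Icc (0 : ℝ) 1, ∀ μ : Measure X, IsProbabilityMeasure μ →
      (∀ w, ∫ x, md vol (σ t) (Φ t w) x ∂μ = 0) → 0 < ∫ x, td vol (σ t) x ∂μ := by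
  have key : ∀ t : ℝ, (∃ w, ∀ x, PosTop vol (σ t + Φ t w) x) ↔
      ∀ μ : Measure X, IsProbabilityMeasure μ →
        (∀ w, ∫ x, md vol (σ t) (Φ t w) x ∂μ = 0) → 0 < ∫ x, td vol (σ t) x ∂μ := by
    intro t
    have g1 := transport hd hvol (hσ.slice t) (LinearMap.range (Φ t))
      (by
        rintro ρ ⟨w, rfl⟩
        exact (hΦ w).slice t)
      (by
        rintro ρ ⟨w, rfl⟩ x
        exact hrk t w x)
    constructor
    · rintro ⟨w, hw⟩ μ hμ hann
      exact g1.1 ⟨Φ t w, ⟨w, rfl⟩, hw⟩ μ hμ (by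
        rintro ρ ⟨w', rfl⟩
        exact hann w')
    · intro h
      obtain ⟨ρ, ⟨w, rfl⟩, hw⟩ := g1.2 fun μ hμ hann => h μ hμ fun w => hann _ ⟨w, rfl⟩
      exact ⟨w, hw⟩
  constructor
  · rintro ⟨w, -, -, -, hw⟩ t ht
    exact (key t).1 ⟨w t, hw t ht⟩
  · intro h
    obtain ⟨n, f, w, g1, g2, g3, g4⟩ := rk_path hd hvol hσ Φ hΦ hrk h0 h1
      fun t ht => (key t).2 (h t ht)
    refine ⟨fun t => ∑ i, f i t • w i, g2, g3, ?_, g4⟩
    have g5 : (fun t => Φ t (∑ i, f i t • w i)) = fun t => ∑ i, f i t • Φ t (w i) := by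
      funext t
      rw [map_sum]
      exact Finset.sum_congr rfl fun j _ => map_smul _ _ _
    rw [g5]
    exact SPath.sum _ fun i _ => (hΦ (w i)).mulP (g1 i)

end Pool.Agent.K7.H28.SP
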