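import Pool.Agent.K7.H28.SP.PubQ
import Pool.Agent.K7.H28.SP.P3
import Pool.Agent.K7.H28.SM.BridgeM

/-!
Paths of closed two-forms: comparison of the definitions.
-/

set_option autoImplicit false

open Set Filter Topology MeasureTheory
open scoped Manifold ContDiff

noncomputable section

namespace Pool.Agent.K7.H28.SQP

open Pool.Agent.Y501.SYP
open Pool.Agent.R772.SYK
open Pool.Agent.K7.H28.SMP
open Pool.Agent.K7.H28.SPP
open Pool.Agent.Y501
open Pool.Agent

section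

variable {m d : ℕ} {X : Type} [TopologicalSpace X] [ChartedSpace (ES d) X]

attribute [local instance] Pool.Agent.Y501.SYP.cs
attribute [local instance] Pool.Agent.Y501.SYP.mf

theorem spath_iff {k : ℕ} {ρ : ℝ → Form (ES d) X k} :
    SmoothPath ρ ↔ Pool.Agent.K7.H28.SP.SPath (d := d) (X := X) ρ :=
  ⟨fun h U φ hU hφ => h U φ ⟨hU, hφ⟩, fun h U φ hφ => h U φ hφ.1 hφ.2⟩

theorem closed_of_exact {α : Form (ES d) X 1} {ρ : Form (ES d) X 2} (h1 : IsSmooth α)
    (h2 : IsD α ρ) : IsClosedForm ρ :=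
  (closed_iff ρ).2 (Pool.Agent.K7.H28.SP.closed_of_isD (d := d) (X := X)
    ((smooth_iff α).1 h1) ((isD_iff α ρ).1 h2))

theorem transportPaths (hd : d = 2 * (m + 1)) [IsManifold 𝓘(ℝ, ES d) ∞ X] [CompactSpace X]
    [T2Space X] [MeasurableSpace X] [BorelSpace X] (vol : TopForm (ES d) X m)
    (hvol : IsVolume vol) {W : Type} [AddCommGroup W] [Module ℝ W]
    (σ : ℝ → Form (ES d) X 2) (hσ : IsClosedPath σ) (Φ : ℝ → W → Form (ES d) X 2)
    (hΦ : IsLinearFamily Φ) (h0 : IsPosSymplectic vol (σ 0)) (h1 : IsPosSymplectic vol (σ 1)) :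
    (∃ w : ℝ → W, w 0 = 0 ∧ w 1 = 0 ∧ SmoothPath (fun t => Φ t (w t)) ∧
      ∀ t ∈ Icc (0 : ℝ) 1, IsPosSymplectic vol (addF (σ t) (Φ t (w t)))) ↔
    ∀ t ∈ Icc (0 : ℝ) 1, ∀ μ : Measure X, IsProbabilityMeasure μ →
      (∀ w : W, ∫ x, mixDens vol (σ t) (Φ t w) x ∂μ = 0) → 0 < ∫ x, topDens vol (σ t) x ∂μ := by
  have z0 : ∀ t, Φ t 0 = 0 := by
    intro t
    have e1 := hΦ.lin t 0 0 (-1)
    rw [smul_zero, add_zero] at e1
    have e2 : comb (Φ t 0) (-1) (Φ t 0) = 0 := by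
      funext x
      have e3 : ∀ a : (ES d) [⋀^Fin 2]→L[ℝ] ℝ, a + (-1 : ℝ) • a = 0 := fun a => by
        ext v
        change a v + (-1 : ℝ) * a v = 0
        ring
      exact e3 (Φ t 0 x)
    rw [e1, e2]
  let Ψ : ℝ → W →ₗ[ℝ] Form (ES d) X 2 := fun t =>
    { toFun := Φ t
      map_add' := fun w w' => by
        have e1 := hΦ.lin t w w' 1
        rw [one_smul] at e1
        rw [e1]
        funext x
        change Φ t w x + (1 : ℝ) • Φ t w' x = Φ t w x + Φ t w' x
        rw [one_smul]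
      map_smul' := fun c w => by
        have e1 := hΦ.lin t 0 w c
        rw [zero_add, z0] at e1
        rw [e1]
        funext x
        change (0 : Form (ES d) X 2) x + c • Φ t w x = c • Φ t w x
        exact zero_add _ }
  have key := Pool.Agent.K7.H28.SP.transport_path (d := d) (m := m) (X := X) hd
    (vol := toTop vol) (vol_of hvol) (σ := σ) (spath_iff.1 hσ.smooth) Ψ
    (fun w => spath_iff.1 (hΦ.smooth w)) (fun t w => hΦ.rank t w) (fun x e he => h0.pos x e he)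
    (fun x e he => h1.pos x e he)
  constructor
  · rintro ⟨w, e0, e1, hs, hw⟩
    exact key.1 ⟨w, e0, e1, spath_iff.1 hs, fun t ht x e he => (hw t ht).pos x e he⟩
  · intro h
    obtain ⟨w, e0, e1, hs, hw⟩ := key.2 h
    refine ⟨w, e0, e1, spath_iff.2 hs, fun t ht => ?_⟩
    have c1 : IsClosed2 (σ t) :=
      ⟨(smooth_iff _).2 ((spath_iff.1 hσ.smooth).slice t), hσ.closed t ht⟩
    obtain ⟨α, a1, a2⟩ := hΦ.exact t (w t)
    have c2 : IsClosed2 (Φ t (w t)) :=
      ⟨(smooth_iff _).2 ((spath_iff.1 (hΦ.smooth (w t))).slice t), closed_of_exact a1 a2⟩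
    exact ⟨closed_add c1 c2, fun x v hv => R772.PosTop.nondeg (d := d) (m := m) (X := X) hd
      (vol_of hvol) (hw t ht x) v hv, fun x e he => hw t ht x e he⟩

end

end Pool.Agent.K7.H28.SQP
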