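import Pool.Agent.K7.H28.SY.PubS
import Pool.Agent.K7.H28.SC.PubC

/-!
Paths of almost complex structures and of forms: the definitions used in the statement.
-/

set_option autoImplicit false

open Set Filter Topology MeasureTheory
open scoped Manifold ContDiff

noncomputable section

namespace Pool.Agent.K7.H28.SPP

open Pool.Agent.Y501.SYP
open Pool.Agent.K7.H28.SYP
open Pool.Agent.K7.H28.SCP

section

variable {V : Type} [NormedAddCommGroup V] [NormedSpace ℝ V]
  {X : Type} [TopologicalSpace X] [ChartedSpace V X]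

/-- The path `J t`, `0 ≤ t ≤ 1`, of endomorphism fields is continuous in time and space, in the
charts. -/
def ContPath (J : ℝ → End V X) : Prop :=
  ∀ (x₀ : X) (v : V), ContinuousOn (fun z : ℝ × V => inChart (J z.1) x₀ z.2 v)
    (Icc (0 : ℝ) 1 ×ˢ (chartAt V x₀).target)

/-- The path `ρ t`, `t` real, of forms is smooth in time and space. -/
def SmoothPath {k : ℕ} (ρ : ℝ → Form V X k) : Prop :=
  ∀ (U : Set V) (φ : V → X), SmoothParam U φ →
    ContDiffOn ℝ ∞ (fun z : ℝ × V => pb φ (ρ z.1) z.2) (univ ×ˢ U)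

end

section

variable {d : ℕ} {X : Type} [TopologicalSpace X] [ChartedSpace (ES d) X]

/-- Weak taming by a form with a singular primitive. There are a closed set `K`, covered near its
points by `C r ^ (-k)` balls of radius `r`, and a one-form `β`, smooth off `K` and of size at most
`C dist(·, K) ^ (-q)` near `K`, with `k < 2` and `k + q < 1`, such that `σ = σ₀ + dβ` satisfies
`0 ≤ σ(v, J v)` off `K`, and such that the components of the set of the points of `K` and of the
points where `σ` does not tame `J` are contained in `K` or small. -/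
def SingularlyTamed (J : End (ES d) X) (σ₀ : Form (ES d) X 2) : Prop :=
  ∃ (K : Set X) (k q : ℝ) (β : Form (ES d) X 1) (σ : Form (ES d) X 2), IsClosed K ∧ k < 2 ∧
    k + q < 1 ∧ BoxBound (ES d) K k ∧ SmoothOff β K ∧ SmoothOff σ K ∧ EqPlusD σ σ₀ β K ∧
    GrowthBound β K q ∧
    (∀ x, x ∉ K → ∀ v : TangentSpace 𝓘(ℝ, ES d) x, 0 ≤ qd σ J x v) ∧
    ∀ z ∈ BadSet σ J K, ¬ connectedComponentIn (BadSet σ J K) z ⊆ K →
      SmallAll J (connectedComponentIn (BadSet σ J K) z) z

/-- Weak taming by a form with a continuous primitive. `J` is of class `C¹`, and there are a closed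
set `K`, whose `(d - 1)`-dimensional Hausdorff measure is zero, and a continuous one-form `β` on
`X`, smooth off `K`, such that `σ = σ₀ + dβ` satisfies `0 ≤ σ(v, J v)` off `K`, and such that the
components of the set of the points near which `σ` does not tame `J` uniformly are small. -/
def ContinuouslyTamed (J : End (ES d) X) (σ₀ : Form (ES d) X 2) : Prop :=
  IsC1 J ∧ ∃ (K : Set X) (β : Form (ES d) X 1) (σ : Form (ES d) X 2), IsClosed K ∧
    (∀ x₀ : X, μH[(d : ℝ) - 1] (chartAt (ES d) x₀ '' (K ∩ (chartAt (ES d) x₀).source)) = 0) ∧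
    IsCont β ∧ SmoothOff β K ∧ EqPlusD σ σ₀ β K ∧
    (∀ x, x ∉ K → ∀ v : TangentSpace 𝓘(ℝ, ES d) x, 0 ≤ qd σ J x v) ∧
    ∀ z ∈ Crit σ J K, SmallAll J (connectedComponentIn (Crit σ J K) z) z

end

end Pool.Agent.K7.H28.SPP
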