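import Pool.Agent.K7.H28.SP.P1

/-!
# Paths of almost complex structures: the smooth path of forms
-/

set_option autoImplicit false

open Set Filter Topology MeasureTheory
open scoped Manifold ContDiff

noncomputable section

namespace Pool.Agent.K7.H28.SP

open Pool.Agent.Y501.SY Pool.Agent.Y455.SY

variable {d : ℕ} {X : Type} [TopologicalSpace X] [ChartedSpace (E d) X]

/-- smooth paths of forms -/
def SPath {k : ℕ} (ρ : ℝ → Form d X k) : Prop :=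
  ∀ (U : Set (E d)) (φ : E d → X), IsOpen U → ContMDiffOn (𝓡 d) (𝓡 d) ∞ φ U →
    ContDiffOn ℝ ∞ (fun z : ℝ × E d => pb φ (ρ z.1) z.2) (univ ×ˢ U)

theorem SPath.add {k : ℕ} {ρ τ : ℝ → Form d X k} (hρ : SPath ρ) (hτ : SPath τ) :
    SPath fun t => ρ t + τ t := by
  intro U φ hU hφ
  have h1 := (hρ U φ hU hφ).add (hτ U φ hU hφ)
  refine h1.congr fun z _ => ?_
  show pb φ (ρ z.1 + τ z.1) z.2 = _
  rw [pb_add]
  rfl

theorem SPath.mul {k : ℕ} {f : ℝ → ℝ} {ρ : Form d X k} (hf : ContDiff ℝ ∞ f)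
    (hρ : IsSmooth ρ) : SPath fun t => f t • ρ := by
  intro U φ hU hφ
  have h1 : ContDiffOn ℝ ∞ (fun z : ℝ × E d => f z.1 • pb φ ρ z.2) (univ ×ˢ U) := by
    have g1 : ContDiffOn ℝ ∞ (fun z : ℝ × E d => f z.1) (univ ×ˢ U) :=
      (hf.comp contDiff_fst).contDiffOn
    have g2 : ContDiffOn ℝ ∞ (fun z : ℝ × E d => pb φ ρ z.2) (univ ×ˢ U) :=
      (hρ U φ hU hφ).comp contDiff_snd.contDiffOn fun z hz => hz.2
    exact g1.smul g2
  exact h1

theorem SPath.sum {k : ℕ} {ι : Type} (s : Finset ι) {ρ : ι → ℝ → Form d X k}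
    (hρ : ∀ i ∈ s, SPath (ρ i)) : SPath fun t => ∑ i ∈ s, ρ i t := by
  classical
  induction s using Finset.induction_on with
  | empty =>
    intro U φ hU hφ
    simp only [Finset.sum_empty, pb_zero]
    exact contDiffOn_const
  | insert a s ha ih =>
    have h1 : (fun t => ∑ i ∈ insert a s, ρ i t) = fun t => ρ a t + ∑ i ∈ s, ρ i t := by
      funext t
      rw [Finset.sum_insert ha]
    rw [h1]
    exact (hρ a (Finset.mem_insert_self a s)).add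
      (ih fun i hi => hρ i (Finset.mem_insert_of_mem hi))

theorem IsD.sum' {k : ℕ} {ι : Type} (s : Finset ι) {α : ι → Form d X k}
    {ρ : ι → Form d X (k + 1)} (hα : ∀ i ∈ s, IsSmooth (α i)) (h : ∀ i ∈ s, IsD (α i) (ρ i)) :
    IsD (∑ i ∈ s, α i) (∑ i ∈ s, ρ i) := by
  classical
  induction s using Finset.induction_on with
  | empty =>
    rw [Finset.sum_empty, Finset.sum_empty]
    exact IsD.zero
  | insert a s ha ih =>
    rw [Finset.sum_insert ha, Finset.sum_insert ha]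
    exact (h a (Finset.mem_insert_self a s)).add
      (ih (fun i hi => hα i (Finset.mem_insert_of_mem hi))
        fun i hi => h i (Finset.mem_insert_of_mem hi)) (hα a (Finset.mem_insert_self a s))
      (IsSmooth.sum s fun i hi => hα i (Finset.mem_insert_of_mem hi))

/-- exact forms are closed -/
theorem closed_of_isD {α : Form d X 1} {ρ : Form d X 2} (hα : IsSmooth α) (h : IsD α ρ) :
    IsClosedForm ρ := by
  intro U φ hU hφ p hp
  have g8 : ContDiffAt ℝ ∞ (pb φ α) p := (hα U φ hU hφ).contDiffAt (hU.mem_nhds hp)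
  have g9 : pb φ ρ =ᶠ[𝓝 p] extDeriv (pb φ α) := by
    filter_upwards [hU.mem_nhds hp] with q hq
    exact (h U φ hU hφ q hq).symm
  rw [g9.extDeriv_eq]
  refine extDeriv_extDeriv_apply g8 ?_
  simp only [minSmoothness_of_isRCLikeNormedField]
  exact WithTop.coe_le_coe.2 le_top

variable [IsManifold (𝓡 d) ∞ X]

/-- **The smooth path of taming symplectic forms.** -/
theorem path_full [CompactSpace X] {J : ℝ → End d X} (hJ : JCont J) {σ₀ : Form d X 2}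
    (hσ₀ : IsSmooth σ₀) (hσ₀c : IsClosedForm σ₀)
    (h : ∀ t ∈ Icc (0 : ℝ) 1, ∃ (α : Form d X 1) (ρ : Form d X 2), IsSmooth α ∧ IsSmooth ρ ∧
      IsD α ρ ∧ ∀ x, TamesAt (σ₀ + ρ) (J t) x)
    {α₀ α₁ : Form d X 1} {ρ₀ ρ₁ : Form d X 2} (a0 : IsSmooth α₀) (r0 : IsSmooth ρ₀)
    (d0 : IsD α₀ ρ₀) (t0 : ∀ x, TamesAt (σ₀ + ρ₀) (J 0) x) (a1 : IsSmooth α₁)
    (r1 : IsSmooth ρ₁) (d1 : IsD α₁ ρ₁) (t1 : ∀ x, TamesAt (σ₀ + ρ₁) (J 1) x) :
    ∃ (α : ℝ → Form d X 1) (ρ : ℝ → Form d X 2), SPath α ∧ SPath ρ ∧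
      (∀ t, IsD (α t) (ρ t)) ∧
      (∀ t ∈ Icc (0 : ℝ) 1, IsSmooth (σ₀ + ρ t) ∧ IsClosedForm (σ₀ + ρ t) ∧
        ∀ x, TamesAt (σ₀ + ρ t) (J t) x) ∧
      α 0 = α₀ ∧ ρ 0 = ρ₀ ∧ α 1 = α₁ ∧ ρ 1 = ρ₁ := by
  obtain ⟨n, f, α, ρ, h1, h2, h3, h4, h5, h6, h7, h8, h9⟩ :=
    path_main hJ hσ₀ h a0 r0 d0 t0 a1 r1 d1 t1
  have hα : ∀ t, IsSmooth (∑ i, f i t • α i) := fun t =>
    IsSmooth.sum _ fun i _ => (h2 i).smul _
  have hρ : ∀ t, IsSmooth (∑ i, f i t • ρ i) := fun t =>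
    IsSmooth.sum _ fun i _ => (h3 i).smul _
  have hD : ∀ t, IsD (∑ i, f i t • α i) (∑ i, f i t • ρ i) := fun t =>
    IsD.sum' _ (fun i _ => (h2 i).smul _) fun i _ => (h4 i).smul _
  refine ⟨fun t => ∑ i, f i t • α i, fun t => ∑ i, f i t • ρ i,
    SPath.sum _ fun i _ => SPath.mul (h1 i) (h2 i), SPath.sum _ fun i _ => SPath.mul (h1 i) (h3 i),
    hD, fun t ht => ⟨hσ₀.add (hρ t), ?_, h5 t ht⟩, h6, h7, h8, h9⟩
  have g1 := IsD.add hσ₀c (closed_of_isD (hα t) (hD t)) hσ₀ (hρ t)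
  rwa [add_zero] at g1

end Pool.Agent.K7.H28.SP
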