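import Pool.Agent.K7.H28.SP.PubP
import Pool.Agent.K7.H28.SP.P2
import Pool.Agent.K7.H28.SY.BridgeS
import Pool.Agent.K7.H28.SC.BridgeC

/-!
Paths of almost complex structures: comparison of the definitions.
-/

set_option autoImplicit false

open Set Filter Topology MeasureTheory
open scoped Manifold ContDiff

noncomputable section

namespace Pool.Agent.K7.H28.SPP

open Pool.Agent.Y501.SYP
open Pool.Agent.Y501
open Pool.Agent.K7.H28.SYP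
open Pool.Agent.K7.H28.SCP

section

variable {d : ℕ} {X : Type} [TopologicalSpace X] [ChartedSpace (ES d) X]

attribute [local instance] cs mf

theorem jcont_of {J : ℝ → End (ES d) X} (hJ : ContPath J) :
    Pool.Agent.K7.H28.SP.JCont (d := d) (X := X) J := by
  intro x₀
  exact continuousOn_clm_apply.2 fun v => hJ x₀ v

theorem smoothPath_of {k : ℕ} {ρ : ℝ → Form (ES d) X k}
    (h : Pool.Agent.K7.H28.SP.SPath (d := d) (X := X) ρ) : SmoothPath ρ :=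
  fun U φ hφ => h U φ hφ.1 hφ.2

theorem pathOfStructures [IsManifold 𝓘(ℝ, ES d) ∞ X] [CompactSpace X] [T2Space X]
    (hd : 1 ≤ d) (J : ℝ → End (ES d) X) (hJ : ∀ t ∈ Icc (0 : ℝ) 1, IsAlmostComplex (J t))
    (hJc : ContPath J) (σ₀ : Form (ES d) X 2) (hσ₀ : IsSmooth σ₀) (hσ₀c : IsClosedForm σ₀)
    (α₀ α₁ : Form (ES d) X 1) (ρ₀ ρ₁ : Form (ES d) X 2) (a0 : IsSmooth α₀) (r0 : IsSmooth ρ₀)
    (d0 : IsD α₀ ρ₀) (t0 : IsTamingSymplectic (addF σ₀ ρ₀) (J 0)) (a1 : IsSmooth α₁)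
    (r1 : IsSmooth ρ₁) (d1 : IsD α₁ ρ₁) (t1 : IsTamingSymplectic (addF σ₀ ρ₁) (J 1))
    (hw : ∀ t ∈ Ioo (0 : ℝ) 1, SingularlyTamed (J t) σ₀ ∨ ContinuouslyTamed (J t) σ₀) :
    ∃ (α : ℝ → Form (ES d) X 1) (ρ : ℝ → Form (ES d) X 2), SmoothPath α ∧ SmoothPath ρ ∧
      (∀ t, IsD (α t) (ρ t)) ∧
      (∀ t ∈ Icc (0 : ℝ) 1, IsTamingSymplectic (addF σ₀ (ρ t)) (J t)) ∧
      α 0 = α₀ ∧ ρ 0 = ρ₀ ∧ α 1 = α₁ ∧ ρ 1 = ρ₁ := by
  have hall : ∀ t ∈ Icc (0 : ℝ) 1, ∃ (α : Form (ES d) X 1) (ρ : Form (ES d) X 2), IsSmooth α ∧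
      IsSmooth ρ ∧ IsD α ρ ∧ IsTamingSymplectic (addF σ₀ ρ) (J t) := by
    intro t ht
    rcases eq_or_lt_of_le ht.1 with h | h
    · subst h
      exact ⟨α₀, ρ₀, a0, r0, d0, t0⟩
    rcases eq_or_lt_of_le ht.2 with h' | h'
    · subst h'
      exact ⟨α₁, ρ₁, a1, r1, d1, t1⟩
    rcases hw t ⟨h, h'⟩ with hs | hs
    · obtain ⟨K, k, q, β, σ, g1, g2, g3, g4, g5, g6, g7, g8, g9, g10⟩ := hs
      exact singularPrimitives hd (J t) (hJ t ht) K g1 k q g2 g3 g4 σ₀ hσ₀ hσ₀c β σ g5 g6 g7 g8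
        g9 g10
    · obtain ⟨g0, K, β, σ, g1, g2, g3, g4, g5, g6, g7⟩ := hs
      exact continuousPrimitives hd (J t) (hJ t ht) g0 K g1 g2 σ₀ hσ₀ hσ₀c β g3 g4 σ g5 g6 g7
  obtain ⟨α, ρ, h1, h2, h3, h4, h5, h6, h7, h8⟩ :=
    Pool.Agent.K7.H28.SP.path_full (d := d) (X := X) (jcont_of hJc) (σ₀ := σ₀)
      ((smooth_iff σ₀).1 hσ₀) ((closed_iff σ₀).1 hσ₀c)
      (by
        intro t ht
        obtain ⟨α, ρ, g1, g2, g3, g4⟩ := hall t ht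
        exact ⟨α, ρ, (smooth_iff α).1 g1, (smooth_iff ρ).1 g2, (isD_iff α ρ).1 g3, g4.tames⟩)
      ((smooth_iff α₀).1 a0) ((smooth_iff ρ₀).1 r0) ((isD_iff α₀ ρ₀).1 d0) t0.tames
      ((smooth_iff α₁).1 a1) ((smooth_iff ρ₁).1 r1) ((isD_iff α₁ ρ₁).1 d1) t1.tames
  exact ⟨α, ρ, smoothPath_of h1, smoothPath_of h2, fun t => (isD_iff _ _).2 (h3 t),
    fun t ht => symp_of ((smooth_iff (addF σ₀ (ρ t))).2 (h4 t ht).1)
      ((closed_iff (addF σ₀ (ρ t))).2 (h4 t ht).2.1) (h4 t ht).2.2, h5, h6, h7, h8⟩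

end

end Pool.Agent.K7.H28.SPP
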