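import Pool.Agent.Y455.SY.Pert
import Pool.Agent.Y501.SY.PairL

/-!
# Paths of almost complex structures: taming is an open condition, and patching in time
-/

set_option autoImplicit false

open Set Filter Topology MeasureTheory
open scoped Manifold ContDiff

noncomputable section

namespace Pool.Agent.K7.H28.SP

open Pool.Agent.Y501.SY Pool.Agent.Y455.SY

variable {d : ℕ} {X : Type} [TopologicalSpace X] [ChartedSpace (E d) X] [IsManifold (𝓡 d) ∞ X]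

/-- the path is continuous in time and space, in the charts -/
def JCont (J : ℝ → End d X) : Prop := ∀ x₀ : X,
  ContinuousOn (fun z : ℝ × E d => inChart (J z.1) x₀ z.2)
    (Icc (0 : ℝ) 1 ×ˢ (chartAt (E d) x₀).target)

theorem Q_cont2 {σ : Form d X 2} (hσ : IsSmooth σ) {J : ℝ → End d X} (hJ : JCont J) (x : X)
    {t : ℝ} (ht : t ∈ Icc (0 : ℝ) 1) {p v : E d} (hp : p ∈ (chartAt (E d) x).target) :
    ContinuousWithinAt (fun z : (ℝ × E d) × E d => Q σ (J z.1.1) x z.1.2 z.2)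
      {z | z.1.1 ∈ Icc (0 : ℝ) 1} ((t, p), v) := by
  obtain ⟨S, hS⟩ : ∃ S : Set ((ℝ × E d) × E d), S = {z | z.1.1 ∈ Icc (0 : ℝ) 1} := ⟨_, rfl⟩
  rw [← hS]
  have h1 : ContinuousAt (pb (chartAt (E d) x).symm σ) p :=
    ((hσ _ _ (chartAt (E d) x).open_target (contMDiffOn_chart_symm)).continuousOn).continuousAt
      ((chartAt (E d) x).open_target.mem_nhds hp)
  have h2 : ContinuousWithinAt (fun z : ℝ × E d => inChart (J z.1) x z.2)
      (Icc (0 : ℝ) 1 ×ˢ (chartAt (E d) x).target) (t, p) := hJ x (t, p) ⟨ht, hp⟩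
  have h3 : ContinuousWithinAt (fun z : (ℝ × E d) × E d => pb (chartAt (E d) x).symm σ z.1.2)
      S ((t, p), v) :=
    (ContinuousAt.comp (f := fun z : (ℝ × E d) × E d => z.1.2) (x := ((t, p), v)) h1
      (continuous_snd.comp continuous_fst).continuousAt).continuousWithinAt
  have hev : ∀ᶠ z : (ℝ × E d) × E d in 𝓝[S] ((t, p), v),
      z.1 ∈ Icc (0 : ℝ) 1 ×ˢ (chartAt (E d) x).target := by
    have g1 : ∀ᶠ z : (ℝ × E d) × E d in 𝓝[S] ((t, p), v), z ∈ S := self_mem_nhdsWithin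
    have g2 : ∀ᶠ z : (ℝ × E d) × E d in 𝓝[S] ((t, p), v), z.1.2 ∈ (chartAt (E d) x).target := by
      have g0 : ContinuousAt (fun z : (ℝ × E d) × E d => z.1.2) ((t, p), v) :=
        (continuous_snd.comp continuous_fst).continuousAt
      exact (g0.eventually ((chartAt (E d) x).open_target.mem_nhds hp)).filter_mono
        nhdsWithin_le_nhds
    filter_upwards [g1, g2] with z hz1 hz2
    rw [hS] at hz1
    exact ⟨hz1, hz2⟩
  have h4 : ContinuousWithinAt (fun z : (ℝ × E d) × E d => inChart (J z.1.1) x z.1.2)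
      S ((t, p), v) := by
    have g3 : Tendsto (fun z : (ℝ × E d) × E d => z.1) (𝓝[S] ((t, p), v))
        (𝓝[Icc (0 : ℝ) 1 ×ˢ (chartAt (E d) x).target] (t, p)) :=
      tendsto_nhdsWithin_iff.2 ⟨continuous_fst.continuousAt.continuousWithinAt.tendsto, hev⟩
    exact h2.tendsto.comp g3
  have h5 : ContinuousWithinAt (fun z : (ℝ × E d) × E d => inChart (J z.1.1) x z.1.2 z.2)
      S ((t, p), v) := h4.clm_apply continuousWithinAt_snd
  have h6 : ContinuousWithinAt (fun z : (ℝ × E d) × E d =>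
      (![z.2, inChart (J z.1.1) x z.1.2 z.2] : Fin 2 → E d)) S ((t, p), v) := by
    rw [continuousWithinAt_pi]
    intro i
    fin_cases i
    · exact continuousWithinAt_snd
    · exact h5
  have h7 : Continuous fun q : ((E d) [⋀^Fin 2]→L[ℝ] ℝ) × (Fin 2 → E d) => q.1 q.2 := by
    exact continuous_eval
  exact (h7.continuousAt.tendsto.comp (h3.prodMk h6).tendsto : Tendsto _ _ _)


/-- taming is an open condition in time -/
theorem tames_open [CompactSpace X] {σ : Form d X 2} (hσ : IsSmooth σ) {J : ℝ → End d X}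
    (hJ : JCont J) {t₀ : ℝ} (ht₀ : t₀ ∈ Icc (0 : ℝ) 1) (h : ∀ x, TamesAt σ (J t₀) x) :
    ∀ᶠ t in 𝓝 t₀, t ∈ Icc (0 : ℝ) 1 → ∀ x, TamesAt σ (J t) x := by
  have h1 : ∀ x ∈ (univ : Set X), ∀ᶠ z : ℝ × X in 𝓝 (t₀, x), z.1 ∈ Icc (0 : ℝ) 1 →
      TamesAt σ (J z.1) z.2 := by
    intro x _
    obtain ⟨p₀, hp₀⟩ : ∃ p₀, p₀ = chartAt (E d) x x := ⟨_, rfl⟩
    have hp₀t : p₀ ∈ (chartAt (E d) x).target := by rw [hp₀]; exact mem_chart_target (E d) x
    have h2 : ∀ v ∈ Metric.sphere (0 : E d) 1, ∀ᶠ z : (ℝ × E d) × E d in 𝓝 ((t₀, p₀), v),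
        z.1.1 ∈ Icc (0 : ℝ) 1 → 0 < Q σ (J z.1.1) x z.1.2 z.2 := by
      intro v hv
      have hv0 : v ≠ 0 := by
        rintro rfl
        simp at hv
      have h3 : 0 < Q σ (J t₀) x p₀ v := by
        have h4 := (tames_iff σ (J t₀) x hp₀t).1 (h _) v hv0
        exact h4
      have h4 := (Q_cont2 hσ hJ x ht₀ hp₀t (v := v)).tendsto.eventually (lt_mem_nhds h3)
      exact eventually_nhdsWithin_iff.1 h4
    have h3 := (isCompact_sphere (0 : E d) 1).eventually_forall_of_forall_eventually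
      (P := fun (z : ℝ × E d) (v : E d) => z.1 ∈ Icc (0 : ℝ) 1 → 0 < Q σ (J z.1) x z.2 v) h2
    have h4 : ∀ᶠ z : ℝ × E d in 𝓝 (t₀, p₀), z.1 ∈ Icc (0 : ℝ) 1 →
        z.2 ∈ (chartAt (E d) x).target → TamesAt σ (J z.1) ((chartAt (E d) x).symm z.2) := by
      filter_upwards [h3] with z hz hz1 hz2
      rw [tames_iff σ (J z.1) x hz2, pos_iff (fun v => Q σ (J z.1) x z.2 v)
        (fun s v => Q_smul σ (J z.1) x z.2 v s)]
      exact fun v hv => hz v hv hz1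
    have h5 : ContinuousAt (fun z : ℝ × X => (z.1, chartAt (E d) x z.2)) (t₀, x) :=
      ContinuousAt.prodMk continuousAt_fst (ContinuousAt.comp (g := chartAt (E d) x)
        ((chartAt (E d) x).continuousAt (mem_chart_source (E d) x)) continuousAt_snd)
    have h6 : ∀ᶠ z : ℝ × X in 𝓝 (t₀, x), z.2 ∈ (chartAt (E d) x).source :=
      continuousAt_snd.eventually ((chartAt (E d) x).open_source.mem_nhds
        (mem_chart_source (E d) x))
    rw [hp₀] at h4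
    filter_upwards [h5.eventually h4, h6] with z hz1 hz2 hz3
    have h7 := hz1 hz3 ((chartAt (E d) x).map_source hz2)
    rwa [(chartAt (E d) x).left_inv hz2] at h7
  have h2 := isCompact_univ.eventually_forall_of_forall_eventually
    (P := fun (t : ℝ) (x : X) => t ∈ Icc (0 : ℝ) 1 → TamesAt σ (J t) x) h1
  filter_upwards [h2] with t ht ht2 x
  exact ht x (mem_univ x) ht2

/-- **Patching in time.** -/
theorem path_main [CompactSpace X] {J : ℝ → End d X} (hJ : JCont J) {σ₀ : Form d X 2}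
    (hσ₀ : IsSmooth σ₀)
    (h : ∀ t ∈ Icc (0 : ℝ) 1, ∃ (α : Form d X 1) (ρ : Form d X 2), IsSmooth α ∧ IsSmooth ρ ∧
      IsD α ρ ∧ ∀ x, TamesAt (σ₀ + ρ) (J t) x)
    {α₀ α₁ : Form d X 1} {ρ₀ ρ₁ : Form d X 2} (a0 : IsSmooth α₀) (r0 : IsSmooth ρ₀)
    (d0 : IsD α₀ ρ₀) (t0 : ∀ x, TamesAt (σ₀ + ρ₀) (J 0) x) (a1 : IsSmooth α₁)
    (r1 : IsSmooth ρ₁) (d1 : IsD α₁ ρ₁) (t1 : ∀ x, TamesAt (σ₀ + ρ₁) (J 1) x) :
    ∃ (n : ℕ) (f : Fin n → ℝ → ℝ) (α : Fin n → Form d X 1) (ρ : Fin n → Form d X 2),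
      (∀ i, ContDiff ℝ ∞ (f i)) ∧ (∀ i, IsSmooth (α i)) ∧ (∀ i, IsSmooth (ρ i)) ∧
      (∀ i, IsD (α i) (ρ i)) ∧
      (∀ t ∈ Icc (0 : ℝ) 1, ∀ x, TamesAt (σ₀ + ∑ i, f i t • ρ i) (J t) x) ∧
      (∑ i, f i 0 • α i = α₀) ∧ (∑ i, f i 0 • ρ i = ρ₀) ∧ (∑ i, f i 1 • α i = α₁) ∧
      (∑ i, f i 1 • ρ i = ρ₁) := by
  classical
  -- the forms at all times
  have h' : ∀ t : ℝ, ∃ (α : Form d X 1) (ρ : Form d X 2), IsSmooth α ∧ IsSmooth ρ ∧
      IsD α ρ ∧ (t ∈ Icc (0 : ℝ) 1 → ∀ x, TamesAt (σ₀ + ρ) (J t) x) ∧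
      (t = 0 → α = α₀ ∧ ρ = ρ₀) ∧ (t = 1 → α = α₁ ∧ ρ = ρ₁) := by
    intro t
    by_cases h0 : t = 0
    · subst h0
      exact ⟨α₀, ρ₀, a0, r0, d0, fun _ => t0, fun _ => ⟨rfl, rfl⟩, fun h => by norm_num at h⟩
    · by_cases h1 : t = 1
      · subst h1
        exact ⟨α₁, ρ₁, a1, r1, d1, fun _ => t1, fun h => by norm_num at h, fun _ => ⟨rfl, rfl⟩⟩
      · by_cases ht : t ∈ Icc (0 : ℝ) 1
        · obtain ⟨α, ρ, g1, g2, g3, g4⟩ := h t ht
          exact ⟨α, ρ, g1, g2, g3, fun _ => g4, fun g => absurd g h0, fun g => absurd g h1⟩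
        · exact ⟨α₀, ρ₀, a0, r0, d0, fun g => absurd g ht, fun g => absurd g h0,
            fun g => absurd g h1⟩
  choose α ρ hα hρ hd htm h0 h1 using h'
  -- the radii
  have hr : ∀ t : ℝ, ∃ ε : ℝ, 0 < ε ∧ (t ∈ Icc (0 : ℝ) 1 → ∀ s ∈ Metric.ball t ε,
      s ∈ Icc (0 : ℝ) 1 → ∀ x, TamesAt (σ₀ + ρ t) (J s) x) ∧ (t ≠ 0 → (0 : ℝ) ∉ Metric.ball t ε) ∧
      (t ≠ 1 → (1 : ℝ) ∉ Metric.ball t ε) := by
    intro t
    have g1 : ∀ᶠ s in 𝓝 t, t ∈ Icc (0 : ℝ) 1 → s ∈ Icc (0 : ℝ) 1 → ∀ x,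
        TamesAt (σ₀ + ρ t) (J s) x := by
      by_cases ht : t ∈ Icc (0 : ℝ) 1
      · have g2 := tames_open (σ := σ₀ + ρ t) (fun U φ hU hφ => by
          have g3 := (hσ₀ U φ hU hφ).add (hρ t U φ hU hφ)
          have g4 : pb φ (σ₀ + ρ t) = pb φ σ₀ + pb φ (ρ t) := pb_add φ σ₀ (ρ t)
          rw [g4]
          exact g3) hJ ht (htm t ht)
        filter_upwards [g2] with s hs _
        exact hs
      · exact Eventually.of_forall fun s hs => absurd hs ht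
    have g2 : ∀ᶠ s in 𝓝 t, t ≠ 0 → s ≠ 0 := by
      by_cases ht : t = 0
      · exact Eventually.of_forall fun s hs => absurd ht hs
      · filter_upwards [isOpen_ne.mem_nhds ht] with s hs _
        exact hs
    have g3 : ∀ᶠ s in 𝓝 t, t ≠ 1 → s ≠ 1 := by
      by_cases ht : t = 1
      · exact Eventually.of_forall fun s hs => absurd ht hs
      · filter_upwards [isOpen_ne.mem_nhds ht] with s hs _
        exact hs
    obtain ⟨ε, hε, g4⟩ := Metric.eventually_nhds_iff_ball.1 ((g1.and g2).and g3)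
    exact ⟨ε, hε, fun ht s hs => (g4 s hs).1.1 ht, fun ht hs => (g4 0 hs).1.2 ht rfl,
      fun ht hs => (g4 1 hs).2 ht rfl⟩
  choose ε hε hε1 hε2 hε3 using hr
  obtain ⟨T, hTs, hT⟩ := (isCompact_Icc (a := (0 : ℝ)) (b := 1)).elim_nhds_subcover
    (fun t => Metric.ball t (ε t)) (fun t _ => Metric.ball_mem_nhds t (hε t))
  obtain ⟨f, hf⟩ := SmoothPartitionOfUnity.exists_isSubordinate 𝓘(ℝ, ℝ)
    (isClosed_Icc (a := (0 : ℝ)) (b := 1)) (fun i : T => Metric.ball (i : ℝ) (ε i))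
    (fun i => Metric.isOpen_ball) (by
      intro t ht
      obtain ⟨i, hi, hti⟩ := mem_iUnion₂.1 (hT ht)
      exact mem_iUnion.2 ⟨⟨i, hi⟩, hti⟩)
  have hsum : ∀ t ∈ Icc (0 : ℝ) 1, ∑ i, f i t = 1 := by
    intro t ht
    have g1 := f.sum_eq_one ht
    rwa [finsum_eq_sum_of_fintype] at g1
  have hnn : ∀ i t, 0 ≤ f i t := fun i t => f.nonneg i t
  have hsupp : ∀ (i : T) t, f i t ≠ 0 → t ∈ Metric.ball (i : ℝ) (ε i) := fun i t ht =>
    hf i (subset_tsupport _ ht)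
  -- reindex by `Fin n`
  let e : Fin (Fintype.card T) ≃ T := (Fintype.equivFin T).symm
  have hre : ∀ {M : Type} [AddCommMonoid M] (g : T → M), ∑ i, g (e i) = ∑ j, g j :=
    fun g => Equiv.sum_comp e g
  have hend : ∀ (u : ℝ), u ∈ Icc (0 : ℝ) 1 → (∀ i : T, (i : ℝ) ≠ u → f i u = 0) →
      ∀ (i₀ : T), (i₀ : ℝ) = u → f i₀ u = 1 := by
    intro u hu hz i₀ hi₀
    have g1 := hsum u hu
    rw [Finset.sum_eq_single i₀ (fun j _ hj => hz j fun hju => hj (Subtype.ext (hju.trans hi₀.symm)))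
      (fun hj => absurd (Finset.mem_univ _) hj)] at g1
    exact g1
  have hz0 : ∀ i : T, (i : ℝ) ≠ 0 → f i 0 = 0 := by
    intro i hi
    by_contra hne
    exact hε2 i hi (hsupp i 0 hne)
  have hz1 : ∀ i : T, (i : ℝ) ≠ 1 → f i 1 = 0 := by
    intro i hi
    by_contra hne
    exact hε3 i hi (hsupp i 1 hne)
  have m0 : (0 : ℝ) ∈ Icc (0 : ℝ) 1 := ⟨le_rfl, zero_le_one⟩
  have m1 : (1 : ℝ) ∈ Icc (0 : ℝ) 1 := ⟨zero_le_one, le_rfl⟩
  have hex : ∀ (u : ℝ), u ∈ Icc (0 : ℝ) 1 → (∀ i : T, (i : ℝ) ≠ u → f i u = 0) →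
      ∃ i₀ : T, (i₀ : ℝ) = u := by
    intro u hu hz
    by_contra hcon
    push Not at hcon
    have g1 := hsum u hu
    rw [Finset.sum_eq_zero fun j _ => hz j (hcon j)] at g1
    exact zero_ne_one g1
  have hval : ∀ (u : ℝ), u ∈ Icc (0 : ℝ) 1 → (∀ i : T, (i : ℝ) ≠ u → f i u = 0) →
      ∀ {k : ℕ} (g : ℝ → Form d X k), ∑ i : T, f i u • g i = g u := by
    intro u hu hz k g
    obtain ⟨i₀, hi₀⟩ := hex u hu hz
    rw [Finset.sum_eq_single i₀ (fun j _ hj => by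
      rw [hz j fun hju => hj (Subtype.ext (hju.trans hi₀.symm)), zero_smul])
      (fun hj => absurd (Finset.mem_univ _) hj), hend u hu hz i₀ hi₀, one_smul, hi₀]
  refine ⟨Fintype.card T, fun i => f (e i), fun i => α (e i), fun i => ρ (e i),
    fun i => (f (e i)).contMDiff.contDiff, fun i => hα _, fun i => hρ _, fun i => hd _, ?_, ?_, ?_,
    ?_, ?_⟩
  · intro t ht x v hv
    rw [hre fun j : T => f j t • ρ j]
    have g1 : (σ₀ + ∑ j : T, f j t • ρ j) = ∑ j : T, f j t • (σ₀ + ρ j) := by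
      simp only [smul_add, Finset.sum_add_distrib]
      rw [← Finset.sum_smul, hsum t ht, one_smul]
    rw [g1]
    have g2 : (∑ j : T, f j t • (σ₀ + ρ j)) x ![v, J t x v] =
        ∑ j : T, f j t * ((σ₀ + ρ j) x ![v, J t x v]) := by
      rw [Finset.sum_apply, ContinuousAlternatingMap.sum_apply]
      rfl
    rw [g2]
    obtain ⟨j₀, hj₀⟩ : ∃ j₀ : T, f j₀ t ≠ 0 := by
      by_contra hcon
      push Not at hcon
      have g3 := hsum t ht
      rw [Finset.sum_eq_zero fun j _ => hcon j] at g3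
      exact zero_ne_one g3
    refine Finset.sum_pos' (fun j _ => ?_) ⟨j₀, Finset.mem_univ _, ?_⟩
    · by_cases hj : f j t = 0
      · rw [hj, zero_mul]
      · exact mul_nonneg (hnn j t) (hε1 j (hTs j j.2) t (hsupp j t hj) ht x v hv).le
    · exact mul_pos (lt_of_le_of_ne (hnn j₀ t) (Ne.symm hj₀))
        (hε1 j₀ (hTs j₀ j₀.2) t (hsupp j₀ t hj₀) ht x v hv)
  · rw [hre fun j : T => f j 0 • α j, hval 0 m0 hz0 α]
    exact (h0 0 rfl).1
  · rw [hre fun j : T => f j 0 • ρ j, hval 0 m0 hz0 ρ]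
    exact (h0 0 rfl).2
  · rw [hre fun j : T => f j 1 • α j, hval 1 m1 hz1 α]
    exact (h1 1 rfl).1
  · rw [hre fun j : T => f j 1 • ρ j, hval 1 m1 hz1 ρ]
    exact (h1 1 rfl).2

end Pool.Agent.K7.H28.SP
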