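import Pool.Agent.K7.H28.SP.PubP
import Pool.Agent.K7.H28.SM.PubM

/-!
Paths of closed two-forms and linear families of paths of exact two-forms of rank two: the
definitions used in the statement.
-/

set_option autoImplicit false

open Set Filter Topology MeasureTheory
open scoped Manifold ContDiff

noncomputable section

namespace Pool.Agent.K7.H28.SQP

open Pool.Agent.Y501.SYP
open Pool.Agent.R772.SYK
open Pool.Agent.K7.H28.SMP
open Pool.Agent.K7.H28.SPP

variable {V : Type} [NormedAddCommGroup V] [NormedSpace ℝ V]
  {X : Type} [TopologicalSpace X] [ChartedSpace V X]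

/-- The path `σ t`, `t` real, of two-forms is smooth in time and space and, for `0 ≤ t ≤ 1`, consists
of closed forms. -/
structure IsClosedPath (σ : ℝ → Form V X 2) : Prop where
  smooth : SmoothPath σ
  closed : ∀ t ∈ Icc (0 : ℝ) 1, IsClosedForm (σ t)

/-- A linear family of paths: for each `w` in the vector space `W` there is a smooth path `Φ t w` of
exact two-forms of rank at most two, which is linear in `w`. -/
structure IsLinearFamily {W : Type} [AddCommGroup W] [Module ℝ W] (Φ : ℝ → W → Form V X 2) :
    Prop where
  lin : ∀ (t : ℝ) (w w' : W) (c : ℝ), Φ t (w + c • w') = comb (Φ t w) c (Φ t w')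
  smooth : ∀ w : W, SmoothPath fun t => Φ t w
  exact : ∀ (t : ℝ) (w : W), ∃ α : Form V X 1, IsSmooth α ∧ IsD α (Φ t w)
  rank : ∀ (t : ℝ) (w : W), RankTwo (Φ t w)

end Pool.Agent.K7.H28.SQP
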